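import Pool.Agent.Y208.LQ.Bas

/-!
LQ-CTR: the centre of the swindle algebra.
-/

set_option autoImplicit false

namespace Pool.Agent.Y547.LQ

open Pool.SF Y208.LQ

section

variable {F B : Type} [Field F] [Ring B] [Algebra F B] (w : SwA F B)

/-- the compression by the leaf with a large label is a scalar -/
def Cpr (y : B) : Prop :=
  ∃ (c : F) (N : ℕ), ∀ M, N ≤ M → U' w (.lf M) * y * U w (.lf M) = algebraMap F B c

theorem Cpr.zero : Cpr w 0 := ⟨0, 0, fun M _ => by simp⟩

variable {w}

theorem Cpr.add {x y : B} (hx : Cpr w x) (hy : Cpr w y) : Cpr w (x + y) := by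
  obtain ⟨c, N, h⟩ := hx
  obtain ⟨c', N', h'⟩ := hy
  refine ⟨c + c', max N N', fun M hM => ?_⟩
  rw [mul_add, add_mul, h M (le_of_max_le_left hM), h' M (le_of_max_le_right hM), map_add]

theorem Cpr.smul {x : B} (r : F) (hx : Cpr w x) : Cpr w (r • x) := by
  obtain ⟨c, N, h⟩ := hx
  refine ⟨r * c, N, fun M hM => ?_⟩
  rw [mul_smul_comm, smul_mul_assoc, h M hM, Algebra.smul_def, map_mul]

theorem ty_nil {t : OT} (h : t.ty = []) : t.h = 0 := by
  rw [← ty_length, h]; rfl

variable (w)

theorem cpr_UL (h2 : ∀ t t' : OT, t.h = 0 → t'.h = 0 → U' w t * U w t' = if t = t' then 1 else 0)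
    (j : ℕ) : ∀ G : List OT, tyL G = [] → Cpr w (w.e' ^ j * UL w G) := by
  induction j with
  | zero =>
    intro G hG
    rw [pow_zero, one_mul]
    cases G with
    | nil =>
      refine ⟨1, 0, fun M _ => ?_⟩
      rw [UL_nil, mul_one, h2 _ _ rfl rfl, if_pos rfl, map_one]
    | cons t G =>
      rw [tyL_cons, List.append_eq_nil_iff] at hG
      have ht := ty_nil hG.1
      obtain ⟨N, hN⟩ : ∃ N : ℕ, ∀ M, N ≤ M → OT.lf M ≠ t := by
        cases t with
        | lf m => exact ⟨m + 1, fun M hM h => by injection h with h; omega⟩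
        | hole => exact ⟨0, fun M _ h => by cases h⟩
        | nu m => exact ⟨0, fun M _ h => by cases h⟩
        | node l r => exact ⟨0, fun M _ h => by cases h⟩
      refine ⟨0, N, fun M hM => ?_⟩
      rw [UL_cons, ht, ph_zero, ← mul_assoc, h2 _ _ rfl ht, if_neg (hN M hM), zero_mul, zero_mul,
        map_zero]
  | succ j ih =>
    intro G hG
    cases G with
    | nil =>
      refine ⟨0, 1, fun M hM => ?_⟩
      obtain ⟨M, rfl⟩ : ∃ M', M = M' + 1 := ⟨M - 1, by omega⟩
      rw [UL_nil, mul_one, U_lf, pow_succ' w.s, pow_succ w.e', mul_assoc, mul_assoc (w.e' ^ j),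
        ← mul_assoc w.e', ← mul_assoc w.e', w.es]
      simp
    | cons t G =>
      rw [tyL_cons, List.append_eq_nil_iff] at hG
      have ht := ty_nil hG.1
      have h3 := h2 (.lf 0) t rfl ht
      have h4 : U' w (.lf 0) = w.e' := by
        show w.e' * w.s' ^ 0 = w.e'
        rw [pow_zero, mul_one]
      rw [h4] at h3
      rw [UL_cons, ht, ph_zero, pow_succ, mul_assoc, ← mul_assoc w.e', h3]
      split_ifs
      · rw [one_mul]
        exact ih G hG.2
      · rw [zero_mul, mul_zero]
        exact Cpr.zero w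

theorem e'_pow (l : ℕ) : w.e' ^ l * UL w (List.replicate l (.lf 0)) = 1 := by
  induction l with
  | zero => rw [pow_zero, List.replicate_zero, UL_nil, mul_one]
  | succ l ih =>
    have h1 : UL w (List.replicate (l + 1) (.lf 0)) = w.e * UL w (List.replicate l (.lf 0)) := by
      rw [List.replicate_succ, UL_cons, U_lf, pow_zero, one_mul]
      rfl
    rw [h1, pow_succ, mul_assoc, ← mul_assoc w.e', w.ee, one_mul, ih]

theorem tyL_rep (l : ℕ) : tyL (List.replicate l (.lf 0)) = [] := by
  induction l with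
  | zero => rfl
  | succ l ih => rw [List.replicate_succ, tyL_cons, ih]; rfl

theorem deep_lf (d m : ℕ) : OT.Deep d (.lf m) := by
  cases d <;> trivial

end

theorem t_CTR (h1 : S_ACT) (h2 : S_CLO) : S_CTR := by
  intro F B _ _ _ _ w z hz
  obtain ⟨l, hl⟩ := h1 F B w z
  have hc := (h2 F B w).1
  have h3 := hl 0 (List.replicate l (.lf 0)) (fun t ht => by
    rw [List.eq_of_mem_replicate ht]
    exact deep_lf _ _) (by simp)
  rw [tyL_rep] at h3
  have h4 : ∀ y ∈ Wd w [] 0, Cpr w (w.e' ^ l * y) := by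
    intro y hy
    refine Submodule.span_induction ?_ ?_ ?_ ?_ hy
    · rintro _ ⟨G, hG, -, -, rfl⟩
      exact cpr_UL w hc l G hG
    · rw [mul_zero]
      exact Cpr.zero w
    · intro x y _ _ hx hy
      rw [mul_add]
      exact hx.add hy
    · intro r x _ hx
      rw [mul_smul_comm]
      exact hx.smul r
  have h5 : z = w.e' ^ l * (z * UL w (List.replicate l (.lf 0))) := by
    rw [← mul_assoc, ← hz, mul_assoc, e'_pow, mul_one]
  obtain ⟨c, N, h6⟩ := h4 _ h3
  rw [← h5] at h6
  refine ⟨c, ?_⟩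
  rw [← h6 N le_rfl, ← hz, mul_assoc, hc _ _ rfl rfl, if_pos rfl, mul_one]

end Pool.Agent.Y547.LQ
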