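import Pool.Agent.Y208.LQ.Stm
import Pool.Agent.Helper702.SF.P_finPres_of

/-!
LQ-J1a: the presentation of the swindle algebra.
-/

set_option autoImplicit false

namespace Pool.Agent.Y547.LQ

open Pool.SF Y208.LQ

section

variable (F : Type) [Field F]

/-- the quotient map -/
noncomputable def mk : FreeAlgebra F G12 →ₐ[F] BA F := RingQuot.mkAlgHom F (BAr F)

theorem mk_surj : Function.Surjective (mk F) := RingQuot.mkAlgHom_surjective F (BAr F)

theorem mk_rel (r : BI) : mk F (bL F r) = mk F (bR F r) :=
  RingQuot.mkAlgHom_rel F (s := BAr F) ⟨(r, false), by simp⟩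

theorem mk_rel' (r : BI) : mk F (phT F (bL F r)) = mk F (phT F (bR F r)) :=
  RingQuot.mkAlgHom_rel F (s := BAr F) ⟨(r, true), by simp⟩

theorem comm_n (p : FreeAlgebra F G12) :
    mk F (phT F p) * mk F (lt F .n) = mk F (lt F .n) * mk F (phT F (phT F p)) := by
  induction p using FreeAlgebra.induction with
  | grade0 r => simp only [AlgHom.commutes]; exact Algebra.commutes _ _
  | grade1 g =>
    have := mk_rel F (.pn g)
    simpa only [bL, bR, map_mul] using this
  | mul a b ha hb =>
    simp only [map_mul]
    rw [mul_assoc, hb, ← mul_assoc, ha, mul_assoc]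
  | add a b ha hb =>
    simp only [map_add, add_mul, mul_add, ha, hb]

theorem comm_e (p : FreeAlgebra F G12) :
    mk F (phT F p) * mk F (lt F .e) = mk F (lt F .e) * mk F p := by
  induction p using FreeAlgebra.induction with
  | grade0 r => simp only [AlgHom.commutes]; exact Algebra.commutes _ _
  | grade1 g =>
    have := mk_rel F (.pe g)
    simpa only [bL, bR, map_mul] using this
  | mul a b ha hb =>
    simp only [map_mul]
    rw [mul_assoc, hb, ← mul_assoc, ha, mul_assoc]
  | add a b ha hb =>
    simp only [map_add, add_mul, mul_add, ha, hb]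

theorem comm_s (p : FreeAlgebra F G12) :
    mk F (phT F p) * mk F (lt F .s) = mk F (lt F .s) * mk F (phT F p) := by
  induction p using FreeAlgebra.induction with
  | grade0 r => simp only [AlgHom.commutes]; exact Algebra.commutes _ _
  | grade1 g =>
    have := mk_rel F (.ps g)
    simpa only [bL, bR, map_mul] using this
  | mul a b ha hb =>
    simp only [map_mul]
    rw [mul_assoc, hb, ← mul_assoc, ha, mul_assoc]
  | add a b ha hb =>
    simp only [map_add, add_mul, mul_add, ha, hb]

theorem rnn : mk F (lt F .n') * mk F (lt F .n) = 1 := by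
  have := mk_rel F .nn
  simpa only [bL, bR, map_mul, map_one] using this

theorem phph (p : FreeAlgebra F G12) :
    mk F (phT F (phT F p)) = mk F (lt F .n') * mk F (phT F p) * mk F (lt F .n) := by
  rw [mul_assoc, comm_n, ← mul_assoc, rnn, one_mul]

theorem phi_wd ⦃x y : FreeAlgebra F G12⦄ (h : BAr F x y) :
    ((mk F).comp (phT F)) x = ((mk F).comp (phT F)) y := by
  obtain ⟨⟨r, b⟩, rfl, rfl⟩ := h
  cases b
  · simpa using mk_rel' F r
  · simp only [AlgHom.comp_apply, if_true]
    rw [phph, phph, mk_rel' F r]

/-- the shift on the quotient -/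
noncomputable def phi : BA F →ₐ[F] BA F := RingQuot.liftAlgHom F ⟨(mk F).comp (phT F), phi_wd F⟩

theorem phi_mk (p : FreeAlgebra F G12) : phi F (mk F p) = mk F (phT F p) := by
  unfold phi mk
  rw [RingQuot.liftAlgHom_mkAlgHom_apply]
  rfl

theorem phT_false (x : X6) : phT F (FreeAlgebra.ι F (x, false)) = FreeAlgebra.ι F (x, true) := by
  simp [phT]

/-- the structure on the quotient -/
noncomputable def swA : SwA F (BA F) where
  e := mk F (lt F .e)
  e' := mk F (lt F .e')
  s := mk F (lt F .s)
  s' := mk F (lt F .s')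
  n := mk F (lt F .n)
  n' := mk F (lt F .n')
  φ := phi F
  ee := by simpa only [bL, bR, map_mul, map_one] using mk_rel F .ee
  nn := by simpa only [bL, bR, map_mul, map_one] using mk_rel F .nn
  one := by simpa only [bL, bR, map_mul, map_add, map_one] using mk_rel F .one
  ss := by simpa only [bL, bR, map_mul, map_add, map_one] using mk_rel F .ss
  en := by simpa only [bL, bR, map_mul, map_zero] using mk_rel F .en
  ne := by simpa only [bL, bR, map_mul, map_zero] using mk_rel F .ne
  es := by simpa only [bL, bR, map_mul, map_zero] using mk_rel F .es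
  se := by simpa only [bL, bR, map_mul, map_zero] using mk_rel F .se
  ns := by simpa only [bL, bR, map_mul, map_zero] using mk_rel F .ns
  sn' := by simpa only [bL, bR, map_mul, map_zero] using mk_rel F .sn'
  sn := by simpa only [bL, bR, map_mul, map_zero] using mk_rel F .sn
  ns' := by simpa only [bL, bR, map_mul, map_zero] using mk_rel F .ns'
  φe := by
    intro a
    obtain ⟨p, rfl⟩ := mk_surj F a
    rw [phi_mk, comm_e]
  φs := by
    intro a
    obtain ⟨p, rfl⟩ := mk_surj F a
    rw [phi_mk, comm_s]
  φn := by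
    intro a
    obtain ⟨p, rfl⟩ := mk_surj F a
    rw [phi_mk, phi_mk, comm_n]
  gen := by
    rw [eq_top_iff]
    have h1 : (⊤ : Subalgebra F (BA F)) = (Algebra.adjoin F (Set.range (FreeAlgebra.ι F : G12 → _))).map (mk F) := by
      rw [FreeAlgebra.adjoin_range_ι, Algebra.map_top]
      exact ((AlgHom.range_eq_top _).2 (mk_surj F)).symm
    rw [h1, AlgHom.map_adjoin]
    apply Algebra.adjoin_mono
    rintro _ ⟨_, ⟨⟨x, b⟩, rfl⟩, rfl⟩
    cases b
    · left
      cases x <;> simp [lt]
    · right
      refine ⟨mk F (FreeAlgebra.ι F (x, false)), ?_, ?_⟩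
      · cases x <;> simp [lt]
      · rw [phi_mk, phT_false]

end

theorem t_J1a : S_J1a := by
  intro F _
  refine ⟨?_, ⟨swA F⟩⟩
  exact finPres_of (R := BI × Bool) (fun r => if r.2 then phT F (bL F r.1) else bL F r.1)
    (fun r => if r.2 then phT F (bR F r.1) else bR F r.1)

end Pool.Agent.Y547.LQ
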