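import Pool.Agent.Y208.LQ.Stm

/-!
LQ-J1b: a module of the swindle algebra, on the functions on the sequences of trees.
-/

set_option autoImplicit false

namespace Pool.Agent.Y547.LQ

open Pool.SF Y208.LQ

/-- binary trees with labelled leaves -/
inductive TT : Type
  | lf (m : ℕ)
  | node (l r : TT)

/-- sequences of trees -/
abbrev Om : Type := ℕ → TT

/-- insertion of a tree -/
def cs (t : TT) (w : Om) : Om
  | 0 => t
  | k + 1 => w k

/-- the tail -/
def tl (w : Om) : Om := fun k => w (k + 1)

theorem tl_cs (t : TT) (w : Om) : tl (cs t w) = w := rfl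

theorem cs_zero (t : TT) (w : Om) : cs t w 0 = t := rfl

theorem cs_one (t : TT) (w : Om) : cs t w 1 = w 0 := rfl

theorem cs_tl (w : Om) : cs (w 0) (tl w) = w := by
  funext k
  cases k <;> rfl

section

variable (F : Type) [Field F]

abbrev V : Type := Om → F

variable {F}

theorem ext_op {A B : Module.End F (V F)} (h : ∀ f t w, A f (cs t w) = B f (cs t w)) : A = B := by
  refine LinearMap.ext fun f => funext fun w => ?_
  rw [← cs_tl w]
  exact h f _ _

theorem ext_op2 {A B : Module.End F (V F)} (h : ∀ f a b w, A f (cs a (cs b w)) = B f (cs a (cs b w))) :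
    A = B := by
  refine ext_op fun f t w => ?_
  rw [← cs_tl w]
  exact h f _ _ _

variable (F)

def oe : Module.End F (V F) where
  toFun f := fun w => match w 0 with
    | .lf 0 => f (tl w)
    | _ => 0
  map_add' f g := by
    funext w
    simp only [Pi.add_apply]
    split <;> simp
  map_smul' c f := by
    funext w
    simp only [Pi.smul_apply, RingHom.id_apply]
    split <;> simp

def oe' : Module.End F (V F) where
  toFun f := fun w => f (cs (.lf 0) w)
  map_add' f g := rfl
  map_smul' c f := rfl

def os : Module.End F (V F) where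
  toFun f := fun w => match w 0 with
    | .lf (m + 1) => f (cs (.lf m) (tl w))
    | _ => 0
  map_add' f g := by
    funext w
    simp only [Pi.add_apply]
    split <;> simp
  map_smul' c f := by
    funext w
    simp only [Pi.smul_apply, RingHom.id_apply]
    split <;> simp

def os' : Module.End F (V F) where
  toFun f := fun w => match w 0 with
    | .lf m => f (cs (.lf (m + 1)) (tl w))
    | _ => 0
  map_add' f g := by
    funext w
    simp only [Pi.add_apply]
    split <;> simp
  map_smul' c f := by
    funext w
    simp only [Pi.smul_apply, RingHom.id_apply]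
    split <;> simp

def on : Module.End F (V F) where
  toFun f := fun w => match w 0 with
    | .node a b => f (cs a (cs b (tl w)))
    | _ => 0
  map_add' f g := by
    funext w
    simp only [Pi.add_apply]
    split <;> simp
  map_smul' c f := by
    funext w
    simp only [Pi.smul_apply, RingHom.id_apply]
    split <;> simp

def on' : Module.End F (V F) where
  toFun f := fun w => f (cs (.node (w 0) (w 1)) (tl (tl w)))
  map_add' f g := rfl
  map_smul' c f := rfl

/-- the shift -/
def Ph0 (T : Module.End F (V F)) : Module.End F (V F) where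
  toFun f := fun w => T (fun w' => f (cs (w 0) w')) (tl w)
  map_add' f g := by
    funext w
    have h := T.map_add (fun w' => f (cs (w 0) w')) (fun w' => g (cs (w 0) w'))
    exact congrFun h (tl w)
  map_smul' c f := by
    funext w
    have h := T.map_smul c (fun w' => f (cs (w 0) w'))
    exact congrFun h (tl w)

variable {F}

theorem oe_0 (f : V F) (w : Om) : oe F f (cs (.lf 0) w) = f w := rfl
theorem oe_s (f : V F) (w : Om) (m : ℕ) : oe F f (cs (.lf (m + 1)) w) = 0 := rfl
theorem oe_n (f : V F) (w : Om) (a b : TT) : oe F f (cs (.node a b) w) = 0 := rfl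
theorem oe'_ (f : V F) (w : Om) : oe' F f w = f (cs (.lf 0) w) := rfl
theorem os_0 (f : V F) (w : Om) : os F f (cs (.lf 0) w) = 0 := rfl
theorem os_s (f : V F) (w : Om) (m : ℕ) : os F f (cs (.lf (m + 1)) w) = f (cs (.lf m) w) := rfl
theorem os_n (f : V F) (w : Om) (a b : TT) : os F f (cs (.node a b) w) = 0 := rfl
theorem os'_l (f : V F) (w : Om) (m : ℕ) : os' F f (cs (.lf m) w) = f (cs (.lf (m + 1)) w) := rfl
theorem os'_n (f : V F) (w : Om) (a b : TT) : os' F f (cs (.node a b) w) = 0 := rfl
theorem on_l (f : V F) (w : Om) (m : ℕ) : on F f (cs (.lf m) w) = 0 := rfl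
theorem on_n (f : V F) (w : Om) (a b : TT) : on F f (cs (.node a b) w) = f (cs a (cs b w)) := rfl
theorem on'_ (f : V F) (w : Om) (a b : TT) : on' F f (cs a (cs b w)) = f (cs (.node a b) w) := rfl
theorem Ph0_ (T : Module.End F (V F)) (f : V F) (t : TT) (w : Om) :
    Ph0 F T f (cs t w) = T (fun w' => f (cs t w')) w := rfl

variable (F)

/-- the shift as an algebra homomorphism -/
def Ph : Module.End F (V F) →ₐ[F] Module.End F (V F) where
  toFun := Ph0 F
  map_one' := ext_op fun f t w => rfl
  map_mul' A B := ext_op fun f t w => rfl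
  map_zero' := ext_op fun f t w => rfl
  map_add' A B := ext_op fun f t w => rfl
  commutes' c := ext_op fun f t w => rfl

theorem Ph_ (T : Module.End F (V F)) (f : V F) (t : TT) (w : Om) :
    Ph F T f (cs t w) = T (fun w' => f (cs t w')) w := rfl

theorem Ph_e (T : Module.End F (V F)) : Ph F T * oe F = oe F * T := by
  refine ext_op fun f t w => ?_
  rw [Module.End.mul_apply, Module.End.mul_apply, Ph_]
  rcases t with (_ | m) | ⟨a, b⟩
  · rw [oe_0]; rfl
  · rw [oe_s]
    exact congrFun (T.map_zero) w
  · rw [oe_n]
    exact congrFun (T.map_zero) w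

theorem Ph_s (T : Module.End F (V F)) : Ph F T * os F = os F * Ph F T := by
  refine ext_op fun f t w => ?_
  rw [Module.End.mul_apply, Module.End.mul_apply, Ph_]
  rcases t with (_ | m) | ⟨a, b⟩
  · rw [os_0]
    exact congrFun (T.map_zero) w
  · rw [os_s]; rfl
  · rw [os_n]
    exact congrFun (T.map_zero) w

theorem Ph_n (T : Module.End F (V F)) : Ph F T * on F = on F * Ph F (Ph F T) := by
  refine ext_op fun f t w => ?_
  rw [Module.End.mul_apply, Module.End.mul_apply, Ph_]
  rcases t with m | ⟨a, b⟩
  · rw [on_l]
    exact congrFun (T.map_zero) w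
  · rw [on_n]; rfl

theorem onn : on' F * on F = 1 := ext_op2 fun f a b w => rfl

/-- the operators of the letters -/
def X : X6 → Module.End F (V F)
  | .e => oe F
  | .e' => oe' F
  | .s => os F
  | .s' => os' F
  | .n => on F
  | .n' => on' F

/-- the evaluation -/
noncomputable def ev : FreeAlgebra F G12 →ₐ[F] Module.End F (V F) :=
  FreeAlgebra.lift F (fun g => if g.2 = false then X F g.1 else Ph F (X F g.1))

theorem ev_lt (x : X6) : ev F (lt F x) = X F x := by simp [ev, lt]

theorem ev_phT (p : FreeAlgebra F G12) : ev F (phT F p) = Ph F (ev F p) := by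
  have h : (ev F).comp (phT F) = (Ph F).comp (ev F) := by
    apply FreeAlgebra.hom_ext
    funext g
    obtain ⟨x, b⟩ := g
    cases b
    · simp [phT, ev]
    · simp only [Function.comp_apply, AlgHom.comp_apply, phT, FreeAlgebra.lift_ι_apply,
        Bool.true_eq_false, if_false, map_mul, ev_lt]
      have h1 : ev F (FreeAlgebra.ι F (x, true)) = Ph F (X F x) := by simp [ev]
      rw [h1]
      change on' F * Ph F (X F x) * on F = _
      rw [mul_assoc, Ph_n, ← mul_assoc, onn, one_mul]
  exact DFunLike.congr_fun h p

theorem ev_rel (r : BI) : ev F (bL F r) = ev F (bR F r) := by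
  cases r with
  | ee => simp only [bL, bR, map_mul, map_one, ev_lt, X]; exact ext_op fun f t w => rfl
  | nn => simp only [bL, bR, map_mul, map_one, ev_lt, X]; exact onn F
  | one =>
    simp only [bL, bR, map_mul, map_add, map_one, ev_lt, X]
    refine ext_op fun f t w => ?_
    simp only [LinearMap.add_apply, Pi.add_apply, Module.End.mul_apply, Module.End.one_apply]
    rcases t with (_ | m) | ⟨a, b⟩
    · rw [oe_0, os_0, on_l, add_zero, add_zero]; rfl
    · rw [oe_s, os_s, on_l, add_zero, zero_add]; rfl
    · rw [oe_n, os_n, on_n, zero_add, zero_add]; rfl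
  | ss =>
    simp only [bL, bR, map_mul, map_add, ev_lt, X]
    refine ext_op fun f t w => ?_
    simp only [LinearMap.add_apply, Pi.add_apply, Module.End.mul_apply]
    rcases t with (_ | m) | ⟨a, b⟩
    · rw [oe_0, os_0, os'_l, os_s, add_zero]; rfl
    · rw [oe_s, os_s, os'_l, os'_l, os_s, zero_add]
    · rw [oe_n, os_n, os'_n, zero_add]
  | en => simp only [bL, bR, map_mul, map_zero, ev_lt, X]; exact ext_op fun f t w => rfl
  | ne => simp only [bL, bR, map_mul, map_zero, ev_lt, X]; exact ext_op2 fun f a b w => rfl
  | es => simp only [bL, bR, map_mul, map_zero, ev_lt, X]; exact ext_op fun f t w => rfl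
  | se =>
    simp only [bL, bR, map_mul, map_zero, ev_lt, X]
    refine ext_op fun f t w => ?_
    cases t <;> rfl
  | ns => simp only [bL, bR, map_mul, map_zero, ev_lt, X]; exact ext_op2 fun f a b w => rfl
  | sn' =>
    simp only [bL, bR, map_mul, map_zero, ev_lt, X]
    refine ext_op fun f t w => ?_
    cases t <;> rfl
  | sn =>
    simp only [bL, bR, map_mul, map_zero, ev_lt, X]
    refine ext_op fun f t w => ?_
    rcases t with (_ | m) | ⟨a, b⟩ <;> rfl
  | ns' =>
    simp only [bL, bR, map_mul, map_zero, ev_lt, X]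
    exact ext_op2 fun f a b w => rfl
  | pe g =>
    simp only [bL, bR, map_mul, ev_lt, ev_phT, X]
    exact Ph_e F _
  | ps g =>
    simp only [bL, bR, map_mul, ev_lt, ev_phT, X]
    exact Ph_s F _
  | pn g =>
    simp only [bL, bR, map_mul, ev_lt, ev_phT, X]
    exact Ph_n F _

theorem ev_wd ⦃x y : FreeAlgebra F G12⦄ (h : BAr F x y) : ev F x = ev F y := by
  obtain ⟨⟨r, b⟩, rfl, rfl⟩ := h
  cases b
  · simpa using ev_rel F r
  · simp only [if_true]
    rw [ev_phT, ev_phT, ev_rel F r]

end

theorem t_J1b : S_J1b := by
  intro F _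
  have : Nonempty Om := ⟨fun _ => .lf 0⟩
  have : Nontrivial (V F) := inferInstance
  exact RingHom.domain_nontrivial (RingQuot.liftAlgHom F ⟨ev F, ev_wd F⟩ : BA F →ₐ[F] Module.End F (V F)).toRingHom

end Pool.Agent.Y547.LQ
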